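import Pool.Agent.helper35.DR.SpecP
import Pool.Agent.helper35.DR.SpecT
import Pool.Agent.helper35.DR.SpecA

/-! PFU: full pairs. -/

set_option autoImplicit false

namespace Pool.Agent.DR

open Pool.Agent.helper58.DC Pool.Agent.DI

theorem PFU_prod (f : TT → ℂ) : ∏ t, f t = f t₁ * f t₀ := Fintype.prod_bool f

theorem PFU_t : t₁ ≠ t₀ := Bool.noConfusion

theorem PFU_two₀ {α : Type} (a b : α) : two a b t₀ = a := if_pos rfl

theorem PFU_two₁ {α : Type} (a b : α) : two a b t₁ = b := if_neg PFU_t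

theorem PFU_cases (t : TT) : t = t₀ ∨ t = t₁ := by
  rcases (t : Bool) with _ | _
  · exact Or.inl rfl
  · exact Or.inr rfl

theorem PFU_all {P : TT → Prop} (h0 : P t₀) (h1 : P t₁) (t : TT) : P t := by
  rcases PFU_cases t with h | h
  · rw [h]; exact h0
  · rw [h]; exact h1

theorem PFU (hTEX : TEX_stmt) (hRST : RST_stmt) (hTIN : TIN_stmt) (hTPR : TPR_stmt)
    (hTDU : TDU_stmt) (hECD : ECD_stmt) (hPMP : PMP_stmt) (hPDL : PDL_stmt)
    (hB13 : Pool.Agent.DI.B13_stmt) (hIO : IO_stmt) (hIF : IF_stmt) : PFU_stmt := by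
  classical
  intro G E A _ _ _ _ _ _ X p hp M hOp χ hχ
  -- the cocycle of a full pair
  have hex : ∀ x : Finset (Subgroup G) × (G → ℂ), IsPair p M χ x → Vx X x = ⊤ →
      ∃ α ∈ Coc A, Asc (X.stab x.1 x.2) X.proj (ext0 X.inc x.2) α := by
    intro x hx hV
    obtain ⟨hrad, hirr, -⟩ := hx
    obtain ⟨P₀, hP₀, -⟩ := hrad.radical
    obtain ⟨-, -, h3⟩ := hRST G E A X x.1 hrad.chain ⟨P₀, hP₀⟩
    obtain ⟨-, hst, hinv⟩ := h3 x.2 hirr
    have h4 : ext0 X.inc x.2 ∈ IrrOn (X.stab x.1 x.2 ⊓ X.proj.ker) := by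
      rw [hst]
      exact ((hB13 G E p X.inc X.inc_injective (nrm x.1)).2.1 x.2).mp hirr
    exact hTEX E A X.proj (X.stab x.1 x.2) hV (ext0 X.inc x.2) h4 hinv
  choose! a ha1 ha2 using hex
  refine ⟨a, ha1, ?_⟩
  intro x y hx hy hVx hVy N hN D
  have hx' := hx
  have hy' := hy
  obtain ⟨hradx, hirrx, -⟩ := hx
  obtain ⟨hrady, hirry, -⟩ := hy
  obtain ⟨Px, hPx, -⟩ := hradx.radical
  obtain ⟨Py, hPy, -⟩ := hrady.radical
  obtain ⟨-, -, h3x⟩ := hRST G E A X x.1 hradx.chain ⟨Px, hPx⟩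
  obtain ⟨-, -, h3y⟩ := hRST G E A X y.1 hrady.chain ⟨Py, hPy⟩
  obtain ⟨-, hstx, hinvx⟩ := h3x x.2 hirrx
  obtain ⟨-, hsty, hinvy⟩ := h3y y.2 hirry
  have hAx := ha2 x hx' hVx
  have hAy := ha2 y hy' hVy
  have hdirr : dl y.2 ∈ IrrOn (nrm y.1) := ((hPDL G y.2 y.2).2.1 (nrm y.1)).mpr hirry
  have hdlext : dl (ext0 X.inc y.2) = ext0 X.inc (dl y.2) := by
    funext e
    have hb := (hB13 G E p X.inc X.inc_injective (nrm y.1)).1
    by_cases he : e ∈ X.inc.range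
    · obtain ⟨g, rfl⟩ := he
      rw [(hb (dl y.2)).1]
      show ext0 X.inc y.2 (X.inc g)⁻¹ = y.2 g⁻¹
      rw [← map_inv, (hb y.2).1]
    · rw [(hb (dl y.2)).2 e he]
      exact (hb y.2).2 _ (fun h => he (by
        have := X.inc.range.inv_mem h
        rwa [inv_inv] at this))
  have hAdy : Asc (X.stab y.1 y.2) X.proj (ext0 X.inc (dl y.2)) (a y)⁻¹ := by
    rw [← hdlext]
    exact hTDU E A X.proj (X.stab y.1 y.2) (ext0 X.inc y.2) (a y)
      (ha1 y hy' hVy) hAy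
  set SS : TT → Subgroup E := two (X.stab x.1 x.2) (X.stab y.1 y.2) with hSS
  set ψ' : TT → G → ℂ := two x.2 (dl y.2) with hψ'
  set α' : TT → A → A → ℂˣ := two (a x) (a y)⁻¹ with hα'
  have hS0 : SS t₀ = X.stab x.1 x.2 := PFU_two₀ _ _
  have hS1 : SS t₁ = X.stab y.1 y.2 := PFU_two₁ _ _
  have hψ0 : ψ' t₀ = x.2 := PFU_two₀ _ _
  have hψ1 : ψ' t₁ = dl y.2 := PFU_two₁ _ _
  have hα0 : α' t₀ = a x := PFU_two₀ _ _
  have hα1 : α' t₁ = (a y)⁻¹ := PFU_two₁ _ _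
  have hAsc := hTPR G E A X SS ψ' α' (PFU_all (by rw [hS0, hψ0, hα0]; exact hAx)
    (by rw [hS1, hψ1, hα1]; exact hAdy))
  rw [hα0, hα1] at hAsc
  obtain ⟨hmap, hcardk, hfin⟩ := hPMP G E A X SS
  rw [hS0, hS1] at hmap hcardk
  have hmap' : (prS X SS).map (X2 X).proj = ⊤ := by
    rw [hmap]
    show Vx X x ⊓ Vx X y = ⊤
    rw [hVx, hVy, top_inf_eq]
  -- the kernel
  let HH : TT → Subgroup G := two (nrm x.1) (nrm y.1)
  have hHH0 : HH t₀ = nrm x.1 := PFU_two₀ _ _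
  have hHH1 : HH t₁ = nrm y.1 := PFU_two₁ _ _
  have hSH : ∀ t, SS t ⊓ X.proj.ker = (HH t).map X.inc :=
    PFU_all (by rw [hS0, hHH0, hstx]) (by rw [hS1, hHH1, hsty])
  have hker : prS X SS ⊓ (X2 X).proj.ker = (Subgroup.pi Set.univ HH).map (X2 X).inc := by
    ext e
    constructor
    · rintro ⟨h1, h2⟩
      obtain ⟨g, rfl⟩ := ((X2 X).exact e).1 h2
      refine ⟨g, ?_, rfl⟩
      intro t _
      have h3 : X.inc (g t) ∈ SS t ⊓ X.proj.ker := by
        refine ⟨h1 t, ?_⟩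
        show X.proj (X.inc (g t)) = 1
        exact (X.exact _).2 ⟨_, rfl⟩
      rw [hSH t] at h3
      obtain ⟨g', hg', hgg⟩ := h3
      rw [← X.inc_injective hgg]
      exact hg'
    · rintro ⟨g, hg, rfl⟩
      refine ⟨?_, ((X2 X).exact _).2 ⟨g, rfl⟩⟩
      intro t
      have h3 : X.inc (g t) ∈ SS t ⊓ X.proj.ker := by
        rw [hSH t]
        exact ⟨g t, hg t (Set.mem_univ t), rfl⟩
      exact h3.1
  have hψirr : tens ψ' ∈ IrrOn (Subgroup.pi Set.univ HH) :=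
    (hIO G TT HH).1 ψ' (PFU_all (by rw [hψ0, hHH0]; exact hirrx) (by rw [hψ1, hHH1]; exact hdirr))
  have hB2 := hB13 (TT → G) (KE X (diag A)) p (X2 X).inc (X2 X).inc_injective (Subgroup.pi Set.univ HH)
  have hψE : ext0 (X2 X).inc (tens ψ') ∈ IrrOn (prS X SS ⊓ (X2 X).proj.ker) := by
    rw [hker]
    exact (hB2.2.1 _).mp hψirr
  -- orders and degrees
  have hcx : Nat.card (X.stab x.1 x.2 ⊓ X.proj.ker : Subgroup E) = Nat.card (nrm x.1) := by
    rw [hstx]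
    exact (Nat.card_congr ((nrm x.1).equivMapOfInjective X.inc X.inc_injective).toEquiv).symm
  have hcy : Nat.card (X.stab y.1 y.2 ⊓ X.proj.ker : Subgroup E) = Nat.card (nrm y.1) := by
    rw [hsty]
    exact (Nat.card_congr ((nrm y.1).equivMapOfInjective X.inc X.inc_injective).toEquiv).symm
  rw [hcx, hcy] at hcardk
  obtain ⟨nx, hnx, hnx1⟩ := ((hIF G (nrm x.1)).2 x.2 hirrx).1
  obtain ⟨ny, hny, hny1⟩ := ((hIF G (nrm y.1)).2 y.2 hirry).1
  have hdx : dfc p x = (padicValNat p (Nat.card (nrm x.1)) : ℤ) - padicValNat p nx := by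
    unfold dfc
    rw [hnx1, Complex.natCast_re, Nat.floor_natCast]
  have hdy : dfc p y = (padicValNat p (Nat.card (nrm y.1)) : ℤ) - padicValNat p ny := by
    unfold dfc
    rw [hny1, Complex.natCast_re, Nat.floor_natCast]
  have hval : ext0 (X2 X).inc (tens ψ') 1 = ((nx * ny : ℕ) : ℂ) := by
    have h1 := (hB2.1 (tens ψ')).1 1
    rw [map_one] at h1
    rw [h1]
    unfold tens
    rw [PFU_prod, hψ0, hψ1]
    show y.2 (1 : G)⁻¹ * x.2 1 = _
    rw [inv_one, hnx1, hny1]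
    push_cast
    ring
  have hDef : Defect p (prS X SS ⊓ (X2 X).proj.ker) (ext0 (X2 X).inc (tens ψ')) (dfc p x + dfc p y) := by
    refine ⟨nx * ny, hval, ?_⟩
    rw [hcardk, hdx, hdy, padicValNat.mul (Nat.card_pos).ne' (Nat.card_pos).ne',
      padicValNat.mul hnx.ne' hny.ne']
    push_cast
    ring
  have hcoc : a x * (a y)⁻¹ ∈ Coc A :=
    mul_mem (ha1 x hx' hVx) (inv_mem (ha1 y hy' hVy))
  have hmain := hTIN (KE X (diag A)) A (X2 X).proj (prS X SS) hmap' (ext0 (X2 X).inc (tens ψ')) hψE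
    (a x * (a y)⁻¹) hcoc hAsc N hN p (dfc p x + dfc p y) D hDef
  have hcard := hECD (KE X (diag A)) A (X2 X).proj (prS X SS) N
  rw [hmap', top_inf_eq, hcardk] at hcard
  unfold relP
  rw [← hSS, ← hψ', hcard, hmain]
  push_cast
  ring

end Pool.Agent.DR
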