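import Pool.Agent.helper35.DR.SpecT

/-! TBW: from characters to projective characters. -/

set_option autoImplicit false

namespace Pool.Agent.DR

open Pool.Agent.helper58.DC Pool.Agent.DI
open scoped TensorProduct

section

variable {Γ Q : Type} [Group Γ] [Group Q] {q : Γ →* Q} {S : Subgroup Γ} {ψ : Γ → ℂ}
  {α : Q → Q → ℂˣ} {V : Type} [AddCommGroup V] [Module ℂ V] {T : Γ → Module.End ℂ V}

/-- the inverse of `T x` -/
noncomputable def TBW_inv (q : Γ →* Q) (α : Q → Q → ℂˣ) (T : Γ → Module.End ℂ V) (x : Γ) :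
    Module.End ℂ V :=
  (((α (q x) (q x)⁻¹)⁻¹ : ℂˣ) : ℂ) • T x⁻¹

theorem TBW_mul_inv (hT : AscT S q ψ α T) {x : Γ} (hx : x ∈ S) : T x * TBW_inv q α T x = 1 := by
  unfold TBW_inv
  rw [mul_smul_comm, hT.mul x hx x⁻¹ (S.inv_mem hx), smul_smul, map_inv, Units.inv_mul, one_smul,
    mul_inv_cancel, hT.one]

theorem TBW_coc (hα : α ∈ Coc Q) (a : Q) : α a⁻¹ a = α a a⁻¹ := by
  have h := hα.1 a a⁻¹ a
  rw [mul_inv_cancel, inv_mul_cancel, hα.2.1, hα.2.2, mul_one, one_mul] at h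
  exact h.symm

theorem TBW_inv_mul (hα : α ∈ Coc Q) (hT : AscT S q ψ α T) {x : Γ} (hx : x ∈ S) :
    TBW_inv q α T x * T x = 1 := by
  unfold TBW_inv
  rw [smul_mul_assoc, hT.mul x⁻¹ (S.inv_mem hx) x hx, smul_smul, map_inv, TBW_coc hα,
    Units.inv_mul, one_smul, inv_mul_cancel, hT.one]

theorem TBW_inv_anti (hα : α ∈ Coc Q) (hT : AscT S q ψ α T) {x y : Γ} (hx : x ∈ S) (hy : y ∈ S) :
    TBW_inv q α T y * TBW_inv q α T x =
      (((α (q x) (q y))⁻¹ : ℂˣ) : ℂ) • TBW_inv q α T (x * y) := by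
  have h1 := TBW_inv_mul hα hT (S.mul_mem hx hy)
  have h2 : T (x * y) = (((α (q x) (q y))⁻¹ : ℂˣ) : ℂ) • (T x * T y) := by
    rw [hT.mul x hx y hy, smul_smul, Units.inv_mul, one_smul]
  calc TBW_inv q α T y * TBW_inv q α T x
      = (TBW_inv q α T (x * y) * T (x * y)) * (TBW_inv q α T y * TBW_inv q α T x) := by
        rw [h1, one_mul]
    _ = TBW_inv q α T (x * y) * (T (x * y) * (TBW_inv q α T y * TBW_inv q α T x)) := by
        rw [mul_assoc]
    _ = TBW_inv q α T (x * y) * ((((α (q x) (q y))⁻¹ : ℂˣ) : ℂ) •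
          (T x * (T y * TBW_inv q α T y) * TBW_inv q α T x)) := by
        rw [h2, smul_mul_assoc]
        simp only [mul_assoc]
    _ = _ := by
        rw [TBW_mul_inv hT hy, mul_one, TBW_mul_inv hT hx, mul_smul_comm, mul_one]

end

theorem TBW_core {Γ Q : Type} [Group Γ] [Finite Γ] [Group Q] {q : Γ →* Q} {S : Subgroup Γ}
    {ψ φ : Γ → ℂ} {α : Q → Q → ℂˣ} (hα : α ∈ Coc Q) {V : Type} [AddCommGroup V] [Module ℂ V]
    [FiniteDimensional ℂ V] {T : Γ → Module.End ℂ V} (hT : AscT S q ψ α T) (N : Subgroup Q)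
    (H L : Subgroup Γ) [Fintype H] (hHL : H ≤ L) (hLS : ∀ x ∈ L, x ∈ S) (hHq : ∀ x ∈ H, q x = 1)
    (hHk : ∀ x ∈ L, q x = 1 → x ∈ H) (hLN : ∀ x ∈ L, q x ∈ N) (hlift : ∀ n ∈ N, ∃ x ∈ L, q x = n)
    (htr : ∀ h ∈ H, ψ h = LinearMap.trace ℂ V (T h))
    (hnorm : (Nat.card H : ℂ)⁻¹ * ∑ h : H, ψ h * ψ ((h⁻¹ : H) : Γ) = 1) {V' : Type}
    [AddCommGroup V'] [Module ℂ V'] [FiniteDimensional ℂ V'] (ρ' : Representation ℂ L V')
    [ρ'.IsIrreducible] (hchar : ∀ x : L, ρ'.character x = φ x) (e : ℕ)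
    (he : ∀ x ∈ H, φ x = e * ψ x) :
    ∃ (W : Type) (_ : AddCommGroup W) (_ : Module ℂ W) (_ : FiniteDimensional ℂ W)
      (S' : Q → Module.End ℂ W), S' 1 = 1 ∧
      (∀ n ∈ N, ∀ n' ∈ N, S' n * S' n' = ((α⁻¹ n n' : ℂˣ) : ℂ) • S' (n * n')) ∧
      Module.finrank ℂ W = e ∧
      ∀ x ∈ L, φ x = LinearMap.trace ℂ V (T x) * LinearMap.trace ℂ W (S' (q x)) := by
  classical
  have hHS : ∀ h : H, (h : Γ) ∈ S := fun h => hLS h (hHL h.2)
  have hα1 : ∀ a, α 1 a = 1 := hα.2.1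
  have hα2 : ∀ a, α a 1 = 1 := hα.2.2
  have hcardne : (Nat.card H : ℂ) ≠ 0 := by exact_mod_cast Nat.card_pos.ne'
  have : Invertible (Nat.card H : ℂ) := invertibleOfNonzero hcardne
  -- the representations of `H`
  let ρ : Representation ℂ H V :=
    { toFun := fun h => T h
      map_one' := hT.one
      map_mul' := fun h h' => by
        show T ((h : Γ) * h') = T h * T h'
        rw [hT.mul h (hHS h) h' (hHS h'), hHq h h.2, hα1, Units.val_one, one_smul] }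
  have hρc : ∀ h : H, ρ.character h = ψ h := fun h => (htr h h.2).symm
  let ρH : Representation ℂ H V' := ρ'.comp (Subgroup.inclusion hHL)
  have hρHc : ∀ h : H, ρH.character h = e * ψ h := by
    intro h
    have h1 : ρH.character h = ρ'.character (Subgroup.inclusion hHL h) := rfl
    rw [h1, hchar]
    exact he h h.2
  let W := ρ.IntertwiningMap ρH
  have hWe : Module.finrank ℂ W = e := by
    have h1 := Representation.card_inv_mul_sum_char_mul_char_eq_finrank ρ ρH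
    have h2 : ∑ g : H, ρH.character g * ρ.character g⁻¹ =
        (e : ℂ) * ∑ h : H, ψ h * ψ ((h⁻¹ : H) : Γ) := by
      rw [Finset.mul_sum]
      refine Finset.sum_congr rfl fun g _ => ?_
      rw [hρHc, hρc]
      ring
    rw [h2, mul_left_comm, hnorm, mul_one] at h1
    exact_mod_cast h1.symm
  have hWf : FiniteDimensional ℂ W := by
    have : Function.Injective (⟨⟨fun f => f.toLinearMap, fun _ _ => rfl⟩, fun _ _ => rfl⟩ :
        W →ₗ[ℂ] (V →ₗ[ℂ] V')) := fun f g h => Representation.IntertwiningMap.ext h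
    exact FiniteDimensional.of_injective _ this
  -- dimensions
  have hdV : ψ 1 = Module.finrank ℂ V := by
    have h1 := hρc 1
    rw [Representation.char_one] at h1
    exact h1.symm
  have hdV' : φ 1 = Module.finrank ℂ V' := by
    have h1 := hchar 1
    rw [Representation.char_one] at h1
    exact h1.symm
  have hdim : Module.finrank ℂ V' = Module.finrank ℂ V * Module.finrank ℂ W := by
    have h1 := he 1 H.one_mem
    rw [hdV, hdV'] at h1
    rw [hWe, mul_comm]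
    exact_mod_cast h1
  have hV'nt : Nontrivial V' := by
    by_contra hV
    rw [not_nontrivial_iff_subsingleton] at hV
    obtain ⟨a, b, hab⟩ := (inferInstance : ρ'.IsIrreducible).toNontrivial
    refine hab ?_
    refine Subrepresentation.ext ?_
    exact Subsingleton.elim _ _
  have hV'pos : 0 < Module.finrank ℂ V' := Module.finrank_pos
  have hWpos : 0 < Module.finrank ℂ W := by
    rcases Nat.eq_zero_or_pos (Module.finrank ℂ W) with h | h
    · rw [hdim, h, mul_zero] at hV'pos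
      exact absurd hV'pos (lt_irrefl _)
    · exact h
  -- the action of `L` on `W`
  have hint : ∀ (f : W) (h : H), f.toLinearMap ∘ₗ T h = ρ' (Subgroup.inclusion hHL h) ∘ₗ f.toLinearMap :=
    fun f h => f.isIntertwining' h
  have hact : ∀ (x : L) (f : W) (h : H),
      (ρ' x ∘ₗ f.toLinearMap ∘ₗ TBW_inv q α T x) ∘ₗ T h =
        ρ' (Subgroup.inclusion hHL h) ∘ₗ (ρ' x ∘ₗ f.toLinearMap ∘ₗ TBW_inv q α T x) := by
    intro x f h
    have hxS : (x : Γ) ∈ S := hLS x x.2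
    have hk : (x : Γ)⁻¹ * h * x ∈ H := by
      refine hHk _ (L.mul_mem (L.mul_mem (L.inv_mem x.2) (hHL h.2)) x.2) ?_
      rw [map_mul, map_mul, hHq h h.2, mul_one, map_inv, inv_mul_cancel]
    set k : H := ⟨(x : Γ)⁻¹ * h * x, hk⟩ with hkdef
    have hkv : (k : Γ) = (x : Γ)⁻¹ * h * x := rfl
    -- `T x * T k = T h * T x`
    have e1 : T x * T k = T h * T x := by
      rw [hT.mul x hxS k (hHS k), hT.mul h (hHS h) x hxS, hHq k k.2, hHq h h.2, hα1, hα2]
      congr 2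
      rw [hkv]
      group
    have e2 : TBW_inv q α T x * T h = T k * TBW_inv q α T x := by
      calc TBW_inv q α T x * T h = TBW_inv q α T x * T h * (T x * TBW_inv q α T x) := by
            rw [TBW_mul_inv hT hxS, mul_one]
        _ = TBW_inv q α T x * (T h * T x) * TBW_inv q α T x := by simp only [mul_assoc]
        _ = (TBW_inv q α T x * T x) * T k * TBW_inv q α T x := by rw [← e1]; simp only [mul_assoc]
        _ = _ := by rw [TBW_inv_mul hα hT hxS, one_mul]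
    have e3 : ρ' x * ρ' (Subgroup.inclusion hHL k) = ρ' (Subgroup.inclusion hHL h) * ρ' x := by
      rw [← map_mul, ← map_mul]
      congr 1
      refine Subtype.ext ?_
      show (x : Γ) * ((x : Γ)⁻¹ * h * x) = h * x
      group
    calc (ρ' x ∘ₗ f.toLinearMap ∘ₗ TBW_inv q α T x) ∘ₗ T h
        = ρ' x ∘ₗ f.toLinearMap ∘ₗ (TBW_inv q α T x * T h) := rfl
      _ = ρ' x ∘ₗ (f.toLinearMap ∘ₗ T k) ∘ₗ TBW_inv q α T x := by rw [e2]; rfl
      _ = (ρ' x * ρ' (Subgroup.inclusion hHL k)) ∘ₗ f.toLinearMap ∘ₗ TBW_inv q α T x := by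
          rw [hint]; rfl
      _ = _ := by rw [e3]; rfl
  let R : L → Module.End ℂ W := fun x =>
    { toFun := fun f => ⟨ρ' x ∘ₗ f.toLinearMap ∘ₗ TBW_inv q α T x, hact x f⟩
      map_add' := fun f g => by
        refine Representation.IntertwiningMap.ext ?_
        ext v
        show ρ' x ((f.toLinearMap + g.toLinearMap) (TBW_inv q α T x v)) =
          ρ' x (f.toLinearMap (TBW_inv q α T x v)) + ρ' x (g.toLinearMap (TBW_inv q α T x v))
        rw [LinearMap.add_apply, map_add]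
      map_smul' := fun c f => by
        refine Representation.IntertwiningMap.ext ?_
        ext v
        show ρ' x ((c • f.toLinearMap) (TBW_inv q α T x v)) =
          c • ρ' x (f.toLinearMap (TBW_inv q α T x v))
        rw [LinearMap.smul_apply, map_smul] }
  have hRv : ∀ (x : L) (f : W), (R x f).toLinearMap = ρ' x ∘ₗ f.toLinearMap ∘ₗ TBW_inv q α T x :=
    fun x f => rfl
  have hRmul : ∀ x y : L, R x * R y = (((α (q x) (q y))⁻¹ : ℂˣ) : ℂ) • R (x * y) := by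
    intro x y
    refine LinearMap.ext fun f => ?_
    refine Representation.IntertwiningMap.ext ?_
    show (R x (R y f)).toLinearMap = (((α (q x) (q y))⁻¹ : ℂˣ) : ℂ) • (R (x * y) f).toLinearMap
    rw [hRv, hRv, hRv]
    have h1 := TBW_inv_anti hα hT (hLS x x.2) (hLS y y.2)
    calc ρ' x ∘ₗ (ρ' y ∘ₗ f.toLinearMap ∘ₗ TBW_inv q α T y) ∘ₗ TBW_inv q α T x
        = (ρ' x * ρ' y) ∘ₗ f.toLinearMap ∘ₗ (TBW_inv q α T y * TBW_inv q α T x) := rfl
      _ = _ := by
          rw [h1, ← map_mul, LinearMap.comp_smul, LinearMap.comp_smul]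
          rfl
  have hRH : ∀ x : L, (x : Γ) ∈ H → R x = 1 := by
    intro x hx
    refine LinearMap.ext fun f => ?_
    refine Representation.IntertwiningMap.ext ?_
    show (R x f).toLinearMap = f.toLinearMap
    rw [hRv]
    have h1 := hint f ⟨x, hx⟩
    have h2 : (Subgroup.inclusion hHL ⟨x, hx⟩ : L) = x := rfl
    rw [h2] at h1
    calc ρ' x ∘ₗ f.toLinearMap ∘ₗ TBW_inv q α T x
        = (ρ' x ∘ₗ f.toLinearMap) ∘ₗ TBW_inv q α T x := rfl
      _ = f.toLinearMap ∘ₗ (T x * TBW_inv q α T x) := by rw [← h1]; rfl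
      _ = _ := by
        rw [TBW_mul_inv hT (hLS x x.2)]
        rfl
  have hRq : ∀ x y : L, q x = q y → R x = R y := by
    intro x y hxy
    have h1 : ((x⁻¹ * y : L) : Γ) ∈ H := by
      refine hHk _ (x⁻¹ * y).2 ?_
      show q ((x : Γ)⁻¹ * y) = 1
      rw [map_mul, map_inv, hxy, inv_mul_cancel]
    have h2 := hRmul x (x⁻¹ * y)
    rw [hRH _ h1, mul_inv_cancel_left, mul_one] at h2
    rw [h2]
    have h3 : q ((x⁻¹ * y : L) : Γ) = 1 := hHq _ h1
    rw [h3, hα2, inv_one, Units.val_one, one_smul]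
  -- the projective representation of `N`
  have hex : ∀ n : Q, n ∈ N → ∃ x : L, q x = n := by
    intro n hn
    obtain ⟨x, hx, hxn⟩ := hlift n hn
    exact ⟨⟨x, hx⟩, hxn⟩
  choose! l hl using hex
  let S' : Q → Module.End ℂ W := fun n => if n ∈ N then R (l n) else 1
  have hS' : ∀ x : L, q x ∈ N → S' (q x) = R x := by
    intro x hx
    show (if q x ∈ N then R (l (q x)) else 1) = R x
    rw [if_pos hx]
    exact hRq _ _ (hl _ hx)
  -- the isomorphism
  let B : V →ₗ[ℂ] W →ₗ[ℂ] V' :=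
    { toFun := fun v =>
        { toFun := fun f => f.toLinearMap v
          map_add' := fun f g => rfl
          map_smul' := fun c f => rfl }
      map_add' := fun v w => by
        refine LinearMap.ext fun f => ?_
        exact map_add f.toLinearMap v w
      map_smul' := fun c v => by
        refine LinearMap.ext fun f => ?_
        exact map_smul f.toLinearMap c v }
  let Ψ : V ⊗[ℂ] W →ₗ[ℂ] V' := TensorProduct.lift B
  have hΨ : ∀ (v : V) (f : W), Ψ (v ⊗ₜ f) = f.toLinearMap v := fun v f => rfl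
  have hΨe : ∀ x : L, Ψ ∘ₗ TensorProduct.map (T x) (R x) = ρ' x ∘ₗ Ψ := by
    intro x
    refine TensorProduct.ext' fun v f => ?_
    show Ψ (TensorProduct.map (T x) (R x) (v ⊗ₜ f)) = ρ' x (Ψ (v ⊗ₜ f))
    rw [TensorProduct.map_tmul, hΨ, hΨ, hRv]
    show ρ' x (f.toLinearMap ((TBW_inv q α T x * T x) v)) = _
    rw [TBW_inv_mul hα hT (hLS x x.2)]
    rfl
  have hsurj : LinearMap.range Ψ = ⊤ := by
    let U : Subrepresentation ρ' := ⟨LinearMap.range Ψ, fun x v hv => by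
      obtain ⟨t, rfl⟩ := hv
      refine ⟨TensorProduct.map (T x) (R x) t, ?_⟩
      exact LinearMap.congr_fun (hΨe x) t⟩
    rcases (inferInstance : ρ'.IsIrreducible).eq_bot_or_eq_top U with h1 | h1
    · exfalso
      have h2 : LinearMap.range Ψ = ⊥ := by
        have : U.toSubmodule = ⊥ := by rw [h1]; rfl
        exact this
      have hnt : Nontrivial W := Module.nontrivial_of_finrank_pos hWpos
      obtain ⟨f, hf⟩ := exists_ne (0 : W)
      apply hf
      refine Representation.IntertwiningMap.ext ?_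
      ext v
      have h3 : Ψ (v ⊗ₜ f) ∈ LinearMap.range Ψ := ⟨_, rfl⟩
      rw [h2, Submodule.mem_bot, hΨ] at h3
      exact h3
    · have : U.toSubmodule = ⊤ := by rw [h1]; rfl
      exact this
  have hfin : Module.finrank ℂ (V ⊗[ℂ] W) = Module.finrank ℂ V' := by
    rw [Module.finrank_tensorProduct, hdim]
  have hinj : Function.Injective Ψ := by
    rw [LinearMap.injective_iff_surjective_of_finrank_eq_finrank hfin]
    exact LinearMap.range_eq_top.mp hsurj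
  let Φ : V ⊗[ℂ] W ≃ₗ[ℂ] V' := LinearEquiv.ofBijective Ψ ⟨hinj, LinearMap.range_eq_top.mp hsurj⟩
  refine ⟨W, inferInstance, inferInstance, hWf, S', ?_, ?_, hWe, ?_⟩
  · show (if (1 : Q) ∈ N then R (l 1) else 1) = 1
    rw [if_pos N.one_mem]
    exact hRH _ (hHk _ (l 1).2 (hl 1 N.one_mem))
  · intro n hn n' hn'
    have h1 := hS' (l n) (by rw [hl n hn]; exact hn)
    have h2 := hS' (l n') (by rw [hl n' hn']; exact hn')
    have h3 := hS' (l n * l n') (by
      show q ((l n : Γ) * l n') ∈ N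
      rw [map_mul, hl n hn, hl n' hn']
      exact N.mul_mem hn hn')
    have h4 : q ((l n * l n' : L) : Γ) = n * n' := by
      show q ((l n : Γ) * l n') = n * n'
      rw [map_mul, hl n hn, hl n' hn']
    rw [hl n hn] at h1
    rw [hl n' hn'] at h2
    rw [h4] at h3
    rw [h1, h2, h3, hRmul, hl n hn, hl n' hn']
    rfl
  · intro x hx
    have hxN : q x ∈ N := hLN x hx
    have h1 := hS' ⟨x, hx⟩ hxN
    rw [h1, ← LinearMap.trace_tensorProduct', ← hchar ⟨x, hx⟩]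
    have h2 : Φ.conj (TensorProduct.map (T x) (R ⟨x, hx⟩)) = ρ' ⟨x, hx⟩ := by
      refine LinearMap.ext fun v => ?_
      obtain ⟨t, rfl⟩ := Φ.surjective v
      rw [LinearEquiv.conj_apply_apply, LinearEquiv.symm_apply_apply]
      exact LinearMap.congr_fun (hΨe ⟨x, hx⟩) t
    rw [← LinearMap.trace_conj' _ Φ, h2]
    rfl

theorem TBW_norm (hTN : TNM_stmt) {Γ Q : Type} [Group Γ] [Finite Γ] [Group Q] [Finite Q]
    {q : Γ →* Q} {S : Subgroup Γ} {ψ : Γ → ℂ} (hψ : ψ ∈ IrrOn (S ⊓ q.ker)) {α : Q → Q → ℂˣ}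
    (hα : α ∈ Coc Q) {V : Type} [AddCommGroup V] [Module ℂ V]
    [FiniteDimensional ℂ V] {T : Γ → Module.End ℂ V} (hT : AscT S q ψ α T) (N : Subgroup Q)
    (hlift : ∀ n ∈ N, ∃ x ∈ S ⊓ N.comap q, q x = n) (φ : Γ → ℂ) (σ : Q → ℂ)
    (hφ : ∀ x ∈ S ⊓ N.comap q, φ x = LinearMap.trace ℂ V (T x) * σ (q x))
    [Fintype (S ⊓ N.comap q : Subgroup Γ)]
    (hnorm : (Nat.card (S ⊓ N.comap q : Subgroup Γ) : ℂ)⁻¹ *
      ∑ h : (S ⊓ N.comap q : Subgroup Γ), φ h * φ ((h⁻¹ : (S ⊓ N.comap q : Subgroup Γ)) : Γ) = 1) :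
    ∑ᶠ n ∈ (N : Set Q), σ n * σ n⁻¹ * (((α⁻¹) n n⁻¹ : ℂˣ) : ℂ)⁻¹ = Nat.card N := by
  classical
  have : Fintype N := Fintype.ofFinite _
  have : Fintype (S ⊓ q.ker : Subgroup Γ) := Fintype.ofFinite _
  have hcardne : (Nat.card (S ⊓ q.ker : Subgroup Γ) : ℂ) ≠ 0 := by exact_mod_cast Nat.card_pos.ne'
  have hcardne' : (Nat.card (S ⊓ N.comap q : Subgroup Γ) : ℂ) ≠ 0 := by
    exact_mod_cast Nat.card_pos.ne'
  have hHL : ∀ x ∈ S ⊓ q.ker, x ∈ S ⊓ N.comap q := fun x hx =>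
    ⟨hx.1, show q x ∈ N by rw [show q x = 1 from hx.2]; exact N.one_mem⟩
  have hex : ∀ n : N, ∃ x : (S ⊓ N.comap q : Subgroup Γ), q x = n := by
    intro n
    obtain ⟨x, hx, hxn⟩ := hlift n n.2
    exact ⟨⟨x, hx⟩, hxn⟩
  choose l hl using hex
  let f : N × (S ⊓ q.ker : Subgroup Γ) → (S ⊓ N.comap q : Subgroup Γ) := fun x =>
    l x.1 * ⟨x.2, hHL _ x.2.2⟩
  have hfq : ∀ x, q (f x : Γ) = x.1 := by
    intro x
    show q ((l x.1 : Γ) * x.2) = x.1
    rw [map_mul, hl, show q (x.2 : Γ) = 1 from x.2.2.2, mul_one]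
  have hfb : Function.Bijective f := by
    constructor
    · rintro ⟨n, h⟩ ⟨n', h'⟩ hxy
      have h1 : n = n' := by
        have h2 := hfq (n, h)
        rw [hxy, hfq] at h2
        exact Subtype.ext h2.symm
      subst h1
      have h2 : (l n : Γ) * h = l n * h' := congrArg Subtype.val hxy
      have h3 : (h : Γ) = h' := mul_left_cancel h2
      rw [Subtype.ext h3]
    · intro x
      have hx : q (x : Γ) ∈ N := x.2.2
      refine ⟨(⟨q x, hx⟩, ⟨(l ⟨q x, hx⟩ : Γ)⁻¹ * x, ⟨S.mul_mem (S.inv_mem (l ⟨q x, hx⟩).2.1) x.2.1, ?_⟩⟩), ?_⟩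
      · show q ((l ⟨q x, hx⟩ : Γ)⁻¹ * x) = 1
        rw [map_mul, map_inv, hl, inv_mul_cancel]
      · refine Subtype.ext ?_
        show (l ⟨q x, hx⟩ : Γ) * ((l ⟨q x, hx⟩ : Γ)⁻¹ * x) = x
        rw [mul_inv_cancel_left]
  have hcard : (Nat.card (S ⊓ N.comap q : Subgroup Γ) : ℂ) =
      Nat.card N * Nat.card (S ⊓ q.ker : Subgroup Γ) := by
    rw [← Nat.card_congr (Equiv.ofBijective f hfb), Nat.card_prod, Nat.cast_mul]
  have hsum : ∑ h : (S ⊓ N.comap q : Subgroup Γ), φ h * φ ((h⁻¹ : (S ⊓ N.comap q : Subgroup Γ)) : Γ) =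
      ∑ n : N, ∑ h : (S ⊓ q.ker : Subgroup Γ), φ (f (n, h)) * φ (((f (n, h))⁻¹ : (S ⊓ N.comap q : Subgroup Γ)) : Γ) := by
    rw [← Fintype.sum_prod_type', ← hfb.sum_comp]
  have hin : ∀ n : N, ∑ h : (S ⊓ q.ker : Subgroup Γ),
      φ (f (n, h)) * φ (((f (n, h))⁻¹ : (S ⊓ N.comap q : Subgroup Γ)) : Γ) =
      Nat.card (S ⊓ q.ker : Subgroup Γ) * (σ n * σ (n : Q)⁻¹ * (((α⁻¹) (n : Q) (n : Q)⁻¹ : ℂˣ) : ℂ)⁻¹) := by
    intro n
    have h1 := hTN Γ Q q S ψ hψ α hα V T hT (l n) (l n).2.1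
    rw [← finsum_set_coe_eq_finsum_mem, finsum_eq_sum_of_fintype, hl n] at h1
    rw [← h1, Finset.sum_mul]
    refine Finset.sum_congr rfl fun h _ => ?_
    rw [hφ _ (f (n, h)).2, hφ _ ((f (n, h))⁻¹).2]
    have e1 : q (f (n, h) : Γ) = n := hfq (n, h)
    have e2 : q (((f (n, h))⁻¹ : (S ⊓ N.comap q : Subgroup Γ)) : Γ) = (n : Q)⁻¹ := by
      show q ((f (n, h) : Γ)⁻¹) = _
      rw [map_inv, e1]
    rw [e1, e2]
    have e3 : (((α⁻¹) (n : Q) (n : Q)⁻¹ : ℂˣ) : ℂ)⁻¹ = ((α (n : Q) (n : Q)⁻¹ : ℂˣ) : ℂ) := by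
      show ((((α (n : Q) (n : Q)⁻¹)⁻¹ : ℂˣ) : ℂ))⁻¹ = _
      rw [Units.val_inv_eq_inv_val, inv_inv]
    rw [e3]
    have e4 : ((α (n : Q) (n : Q)⁻¹ : ℂˣ) : ℂ) ≠ 0 := Units.ne_zero _
    show LinearMap.trace ℂ V (T ((l n : Γ) * h)) * σ n *
      (LinearMap.trace ℂ V (T (((l n : Γ) * h)⁻¹)) * σ (n : Q)⁻¹) = _
    field_simp
  rw [hsum] at hnorm
  rw [Finset.sum_congr rfl fun n _ => hin n, ← Finset.mul_sum, hcard] at hnorm
  have hcN : (Nat.card N : ℂ) ≠ 0 := by exact_mod_cast Nat.card_pos.ne'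
  rw [← finsum_set_coe_eq_finsum_mem, finsum_eq_sum_of_fintype]
  show ∑ i : N, σ i * σ (i : Q)⁻¹ * (((α⁻¹) (i : Q) (i : Q)⁻¹ : ℂˣ) : ℂ)⁻¹ = _
  field_simp at hnorm
  exact hnorm

theorem TBW (hTN : TNM_stmt) : TBW_stmt := by
  classical
  intro Γ Q _ _ _ _ q S hS ψ hψ α hα V _ _ _ T hT N φ hφ e he
  have hψ' := hψ
  obtain ⟨hφ0, V', iV', iM', iF', ρ', hirr, hchar⟩ := hφ
  obtain ⟨hψ0, V0, iV0, iM0, iF0, ρ0, hirr0, hchar0⟩ := hψ
  have : Fintype (S ⊓ q.ker : Subgroup Γ) := Fintype.ofFinite _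
  have : Fintype (S ⊓ N.comap q : Subgroup Γ) := Fintype.ofFinite _
  have hcardne : (Nat.card (S ⊓ q.ker : Subgroup Γ) : ℂ) ≠ 0 := by exact_mod_cast Nat.card_pos.ne'
  have : Invertible (Nat.card (S ⊓ q.ker : Subgroup Γ) : ℂ) := invertibleOfNonzero hcardne
  have hcardne' : (Nat.card (S ⊓ N.comap q : Subgroup Γ) : ℂ) ≠ 0 := by
    exact_mod_cast Nat.card_pos.ne'
  have : Invertible (Nat.card (S ⊓ N.comap q : Subgroup Γ) : ℂ) := invertibleOfNonzero hcardne'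
  have hnorm : (Nat.card (S ⊓ q.ker : Subgroup Γ) : ℂ)⁻¹ *
      ∑ h : (S ⊓ q.ker : Subgroup Γ), ψ h * ψ ((h⁻¹ : (S ⊓ q.ker : Subgroup Γ)) : Γ) = 1 := by
    have h1 := Representation.card_inv_mul_sum_char_mul_char_eq_finrank ρ0 ρ0
    rw [Representation.IsIrreducible.finrank_intertwiningMap_self, hchar0] at h1
    simpa using h1
  have hnormφ : (Nat.card (S ⊓ N.comap q : Subgroup Γ) : ℂ)⁻¹ *
      ∑ h : (S ⊓ N.comap q : Subgroup Γ), φ h * φ ((h⁻¹ : (S ⊓ N.comap q : Subgroup Γ)) : Γ) = 1 := by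
    have h1 := Representation.card_inv_mul_sum_char_mul_char_eq_finrank ρ' ρ'
    rw [Representation.IsIrreducible.finrank_intertwiningMap_self, hchar] at h1
    simpa using h1
  have hlift : ∀ n ∈ N, ∃ x ∈ S ⊓ N.comap q, q x = n := by
    intro n hn
    have h1 : n ∈ S.map q := by rw [hS]; exact Subgroup.mem_top n
    obtain ⟨x, hx, hxn⟩ := h1
    exact ⟨x, ⟨hx, show q x ∈ N by rw [hxn]; exact hn⟩, hxn⟩
  obtain ⟨W, iW, iWM, iWF, S', h1, h2, h3, h4⟩ := TBW_core hα hT N (S ⊓ q.ker) (S ⊓ N.comap q)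
    (fun x hx => ⟨hx.1, show q x ∈ N by rw [show q x = 1 from hx.2]; exact N.one_mem⟩)
    (fun x hx => hx.1) (fun x hx => hx.2) (fun x hx h => ⟨hx.1, h⟩) (fun x hx => hx.2) hlift
    (fun h hh => hT.tr h hh) hnorm ρ' (fun x => congrFun hchar x) e he
  refine ⟨fun n => if n ∈ N then LinearMap.trace ℂ W (S' n) else 0,
    ⟨fun n hn => if_neg hn, ⟨W, iW, iWM, iWF, S', h1, h2, h3, fun n hn => if_pos hn⟩, ?_⟩, ?_⟩
  · exact TBW_norm hTN hψ' hα hT N hlift φ (fun n => if n ∈ N then LinearMap.trace ℂ W (S' n) else 0)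
      (fun x hx => by
        show φ x = _ * (if q x ∈ N then _ else 0)
        rw [if_pos (show q x ∈ N from hx.2)]
        exact h4 x hx) hnormφ
  · intro x hx
    show φ x = _ * (if q x ∈ N then _ else 0)
    rw [if_pos (show q x ∈ N from hx.2)]
    exact h4 x hx

end Pool.Agent.DR
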